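import Pool.Agent.H41.Ortho.LemmaP

set_option autoImplicit false

/-!
# The spaces of the orthocompactness counterexample (MP_adc54a_gt), T1 version

Adapted from `Pool.Agent.H41.Ortho.Space`; the exceptional label sets `d.A k` are now finite,
which makes both spaces T1.
-/

namespace Pool.Agent.H56.OrthoT1

open Pool.Agent.H41.Ortho

/-- number of sheets at level `k` -/
def nn (k : ℕ) : ℕ := k * k + 1

theorem nn_pos (k : ℕ) : 0 < nn k := Nat.succ_pos _

/-- the diagonal points -/
structure DD where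
  /-- chosen level points -/
  y : ℕ → ℕ
  /-- chosen sheets -/
  s : ℕ → ℕ
  hs : ∀ k, s k < nn k
  /-- exceptional labels -/
  A : ℕ → Finset J

/-- the domain -/
inductive XX : Type
  | p (k a i : ℕ) (hi : i < nn k) : XX
  | d (d : DD) : XX
  | e (d : DD) (k : ℕ) (j : J) : XX

/-- the range -/
inductive YY : Type
  | p (k a : ℕ) : YY
  | d (d : DD) : YY
  | e (d : DD) (k : ℕ) (j : J) : YY

/-- the map -/
def ff : XX → YY
  | XX.p k a _ _ => YY.p k a
  | XX.d d => YY.d d
  | XX.e d k j => YY.e d k j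

/-- global datum -/
abbrev GD : Type := ℕ → LD

/-- the diagonal points which respect a global datum -/
def CQ (Q : GD) : Set DD := {d | ∃ k0, ∀ k, k0 ≤ k → ∀ j ∈ (Q k).G (nn k) (d.y k) (d.s k), j ∈ d.A k}

/-- the filter on the diagonal points -/
def FF (C : Set DD) : Prop := ∃ 𝒬 : Set GD, 𝒬.Countable ∧ ∀ d, (∀ Q ∈ 𝒬, d ∈ CQ Q) → d ∈ C

theorem FF_univ : FF Set.univ := ⟨∅, Set.countable_empty, fun _ _ => trivial⟩

theorem FF_CQ (Q : GD) : FF (CQ Q) := ⟨{Q}, Set.countable_singleton Q, fun _ h => h Q rfl⟩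

theorem FF_all {ι : Type} [Countable ι] {C : ι → Set DD} (h : ∀ t, FF (C t)) :
    FF {d | ∀ t, d ∈ C t} := by
  choose q hq1 hq2 using h
  refine ⟨⋃ t, q t, Set.countable_iUnion hq1, ?_⟩
  intro d hd t
  apply hq2
  intro Q hQ
  exact hd Q (Set.mem_iUnion.2 ⟨t, hQ⟩)

theorem FF_inter {C C' : Set DD} (h : FF C) (h' : FF C') : FF (C ∩ C') := by
  obtain ⟨q, h1, h2⟩ := h
  obtain ⟨q', h1', h2'⟩ := h'
  exact ⟨q ∪ q', h1.union h1', fun d hd => ⟨h2 d fun Q hQ => hd Q (Or.inl hQ),
    h2' d fun Q hQ => hd Q (Or.inr hQ)⟩⟩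

/-- basic neighbourhoods of the points `p k a i` -/
def BB (k a i : ℕ) (F : Finset J) (h : ℕ) (C : Set DD) : Set XX := fun x =>
  match x with
  | XX.p k' w i' _ => k' = k ∧ i' = i ∧ w ∈ O a F h
  | XX.d d => d ∈ C ∧ d.s k = i ∧ d.y k ∈ O a F h
  | XX.e d k' j => d ∈ C ∧ d.s k = i ∧ d.y k ∈ O a F h ∧ (k' = k → j ∉ F)

theorem BB_p {k a i : ℕ} {F : Finset J} {h : ℕ} {C : Set DD} {k' w i' : ℕ} {hi' : i' < nn k'} :
    XX.p k' w i' hi' ∈ BB k a i F h C ↔ k' = k ∧ i' = i ∧ w ∈ O a F h := Iff.rfl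

theorem BB_d {k a i : ℕ} {F : Finset J} {h : ℕ} {C : Set DD} {d : DD} :
    XX.d d ∈ BB k a i F h C ↔ d ∈ C ∧ d.s k = i ∧ d.y k ∈ O a F h := Iff.rfl

theorem BB_e {k a i : ℕ} {F : Finset J} {h : ℕ} {C : Set DD} {d : DD} {k' : ℕ} {j : J} :
    XX.e d k' j ∈ BB k a i F h C ↔ d ∈ C ∧ d.s k = i ∧ d.y k ∈ O a F h ∧ (k' = k → j ∉ F) :=
  Iff.rfl

/-- basic neighbourhoods of the points `d` -/
def ND (k0 : ℕ) (d : DD) : Set XX := fun x =>
  match x with
  | XX.p _ _ _ _ => False
  | XX.d d' => d' = d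
  | XX.e d' k j => d' = d ∧ k0 ≤ k ∧ j ∉ d.A k

theorem ND_p {k0 : ℕ} {d : DD} {k' w i' : ℕ} {hi' : i' < nn k'} :
    XX.p k' w i' hi' ∈ ND k0 d ↔ False := Iff.rfl

theorem ND_d {k0 : ℕ} {d d' : DD} : XX.d d' ∈ ND k0 d ↔ d' = d := Iff.rfl

theorem ND_e {k0 : ℕ} {d d' : DD} {k : ℕ} {j : J} :
    XX.e d' k j ∈ ND k0 d ↔ d' = d ∧ k0 ≤ k ∧ j ∉ d.A k := Iff.rfl

theorem BB_mono {k a i : ℕ} {F F' : Finset J} {h h' : ℕ} {C C' : Set DD} (hF : F ⊆ F')
    (hh : h ≤ h') (hC : C' ⊆ C) : BB k a i F' h' C' ⊆ BB k a i F h C := by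
  intro x hx
  cases x with
  | p k' w i' hi' =>
    rw [BB_p] at *
    exact ⟨hx.1, hx.2.1, O_mono hF hh hx.2.2⟩
  | d d =>
    rw [BB_d] at *
    exact ⟨hC hx.1, hx.2.1, O_mono hF hh hx.2.2⟩
  | e d k' j =>
    rw [BB_e] at *
    exact ⟨hC hx.1, hx.2.1, O_mono hF hh hx.2.2.1, fun hk hj => hx.2.2.2 hk (hF hj)⟩

/-- the open sets of the domain -/
def XOpen (G : Set XX) : Prop :=
  (∀ k a i hi, XX.p k a i hi ∈ G → ∃ (F : Finset J) (h : ℕ) (C : Set DD),
    (∀ j ∈ F, j ∈ T a ∨ j.1 = a) ∧ FF C ∧ BB k a i F h C ⊆ G) ∧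
  (∀ d, XX.d d ∈ G → ∃ k0, ND k0 d ⊆ G)

instance instTopX : TopologicalSpace XX where
  IsOpen := XOpen
  isOpen_univ := ⟨fun k a i hi _ => ⟨∅, 0, Set.univ, by simp, FF_univ, Set.subset_univ _⟩,
    fun d _ => ⟨0, Set.subset_univ _⟩⟩
  isOpen_inter := by
    classical
    rintro G G' ⟨h1, h2⟩ ⟨h1', h2'⟩
    constructor
    · rintro k a i hi ⟨hm, hm'⟩
      obtain ⟨F, h, C, hF, hC, hB⟩ := h1 k a i hi hm
      obtain ⟨F', h', C', hF', hC', hB'⟩ := h1' k a i hi hm'
      refine ⟨F ∪ F', max h h', C ∩ C', ?_, FF_inter hC hC', ?_⟩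
      · intro j hj
        rcases Finset.mem_union.1 hj with hj | hj
        · exact hF j hj
        · exact hF' j hj
      · exact Set.subset_inter
          ((BB_mono Finset.subset_union_left (le_max_left _ _) Set.inter_subset_left).trans hB)
          ((BB_mono Finset.subset_union_right (le_max_right _ _) Set.inter_subset_right).trans hB')
    · rintro d ⟨hm, hm'⟩
      obtain ⟨k0, hk0⟩ := h2 d hm
      obtain ⟨k0', hk0'⟩ := h2' d hm'
      refine ⟨max k0 k0', ?_⟩
      intro x hx
      cases x with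
      | p k' w i' hi' => exact absurd hx id
      | d d' => exact ⟨hk0 hx, hk0' hx⟩
      | e d' k j =>
        rw [ND_e] at hx
        exact ⟨hk0 ⟨hx.1, le_trans (le_max_left _ _) hx.2.1, hx.2.2⟩,
          hk0' ⟨hx.1, le_trans (le_max_right _ _) hx.2.1, hx.2.2⟩⟩
  isOpen_sUnion := by
    intro s hs
    constructor
    · rintro k a i hi ⟨G, hG, hm⟩
      obtain ⟨F, h, C, hF, hC, hB⟩ := (hs G hG).1 k a i hi hm
      exact ⟨F, h, C, hF, hC, hB.trans (Set.subset_sUnion_of_mem hG)⟩
    · rintro d ⟨G, hG, hm⟩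
      obtain ⟨k0, hk0⟩ := (hs G hG).2 d hm
      exact ⟨k0, hk0.trans (Set.subset_sUnion_of_mem hG)⟩

theorem isOpen_X {G : Set XX} : IsOpen G ↔
  (∀ k a i hi, XX.p k a i hi ∈ G → ∃ (F : Finset J) (h : ℕ) (C : Set DD),
    (∀ j ∈ F, j ∈ T a ∨ j.1 = a) ∧ FF C ∧ BB k a i F h C ⊆ G) ∧
  (∀ d, XX.d d ∈ G → ∃ k0, ND k0 d ⊆ G) := Iff.rfl

instance instTopY : TopologicalSpace YY := TopologicalSpace.coinduced ff instTopX

theorem isOpen_Y {U : Set YY} : IsOpen U ↔ IsOpen (ff ⁻¹' U) := isOpen_coinduced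

theorem BB_open {k a i : ℕ} {F : Finset J} {h : ℕ} {C : Set DD}
    (hF : ∀ j ∈ F, j ∈ T a ∨ j.1 = a) (hC : FF C) : IsOpen (BB k a i F h C) := by
  rw [isOpen_X]
  constructor
  · intro k' w i' hi' hm
    rw [BB_p] at hm
    obtain ⟨rfl, rfl, hw⟩ := hm
    by_cases hwa : w = a
    · subst hwa
      exact ⟨F, h, C, hF, hC, subset_rfl⟩
    · have hsub : O w F h ⊆ O a F h := O_trans hw hwa subset_rfl le_rfl
      rcases hw with hw | hw
      · exact absurd hw hwa
      · refine ⟨F, h, C, fun j hj => Or.inl (hw.2 hj), hC, ?_⟩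
        intro x hx
        cases x with
        | p k'' w'' i'' hi'' => exact ⟨hx.1, hx.2.1, hsub hx.2.2⟩
        | d d => exact ⟨hx.1, hx.2.1, hsub hx.2.2⟩
        | e d k'' j => exact ⟨hx.1, hx.2.1, hsub hx.2.2.1, hx.2.2.2⟩
  · intro d hm
    rw [BB_d] at hm
    refine ⟨k + 1, ?_⟩
    intro x hx
    cases x with
    | p k' w i' hi' => exact absurd hx id
    | d d' =>
      rw [ND_d] at hx
      rw [hx]
      exact hm
    | e d' k' j =>
      rw [ND_e] at hx
      rw [BB_e, hx.1]
      exact ⟨hm.1, hm.2.1, hm.2.2, fun hk => by omega⟩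

theorem ND_open (k0 : ℕ) (d : DD) : IsOpen (ND k0 d) := by
  rw [isOpen_X]
  constructor
  · intro k' w i' hi' hm
    exact absurd hm id
  · intro d' hm
    rw [ND_d] at hm
    rw [hm]
    exact ⟨k0, subset_rfl⟩

theorem ff_continuous : Continuous ff := continuous_coinduced_rng

theorem ff_surjective : Function.Surjective ff := by
  intro y
  cases y with
  | p k a => exact ⟨XX.p k a 0 (nn_pos k), rfl⟩
  | d d => exact ⟨XX.d d, rfl⟩
  | e d k j => exact ⟨XX.e d k j, rfl⟩

theorem ff_finite (y : YY) : (ff ⁻¹' {y}).Finite := by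
  cases y with
  | p k a =>
    apply (Set.finite_range (fun i : Fin (nn k) => XX.p k a i i.2)).subset
    intro x hx
    cases x with
    | p k' a' i' hi' =>
      have h : YY.p k' a' = YY.p k a := hx
      injection h with h1 h2
      subst h1; subst h2
      exact ⟨⟨i', hi'⟩, rfl⟩
    | d d => exact absurd (show YY.d d = YY.p k a from hx) (by simp)
    | e d k' j => exact absurd (show YY.e d k' j = YY.p k a from hx) (by simp)
  | d d =>
    apply (Set.finite_singleton (XX.d d)).subset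
    intro x hx
    cases x with
    | p k' a' i' hi' => exact absurd (show YY.p k' a' = YY.d d from hx) (by simp)
    | d d' =>
      have h : YY.d d' = YY.d d := hx
      injection h with h
      rw [h]; rfl
    | e d' k' j => exact absurd (show YY.e d' k' j = YY.d d from hx) (by simp)
  | e d k j =>
    apply (Set.finite_singleton (XX.e d k j)).subset
    intro x hx
    cases x with
    | p k' a' i' hi' => exact absurd (show YY.p k' a' = YY.e d k j from hx) (by simp)
    | d d' => exact absurd (show YY.d d' = YY.e d k j from hx) (by simp)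
    | e d' k' j' =>
      have h : YY.e d' k' j' = YY.e d k j := hx
      injection h with h1 h2 h3
      rw [h1, h2, h3]; rfl

theorem ff_closed : IsClosedMap ff := by
  classical
  intro K hK
  rw [← isOpen_compl_iff, isOpen_Y, isOpen_X]
  have hG : IsOpen Kᶜ := hK.isOpen_compl
  rw [isOpen_X] at hG
  constructor
  · intro k a i hi hm
    have hall : ∀ i', ∃ (F : Finset J) (h : ℕ) (C : Set DD),
        (∀ j ∈ F, j ∈ T a ∨ j.1 = a) ∧ FF C ∧ (i' < nn k → BB k a i' F h C ⊆ Kᶜ) := by
      intro i'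
      by_cases hi' : i' < nn k
      · have hmem : XX.p k a i' hi' ∈ Kᶜ := by
          intro hK'
          exact hm ⟨_, hK', rfl⟩
        obtain ⟨F, h, C, h1, h2, h3⟩ := hG.1 k a i' hi' hmem
        exact ⟨F, h, C, h1, h2, fun _ => h3⟩
      · exact ⟨∅, 0, Set.univ, by simp, FF_univ, fun h => absurd h hi'⟩
    choose F h C hF hC hB using hall
    refine ⟨(Finset.range (nn k)).biUnion F, (Finset.range (nn k)).sup h, {d | ∀ i', d ∈ C i'},
      ?_, FF_all hC, ?_⟩
    · intro j hj
      obtain ⟨i', _, hj⟩ := Finset.mem_biUnion.1 hj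
      exact hF i' j hj
    · have hsub : ∀ i' < nn k, BB k a i' ((Finset.range (nn k)).biUnion F)
          ((Finset.range (nn k)).sup h) {d | ∀ i', d ∈ C i'} ⊆ Kᶜ := by
        intro i' hi'
        refine (BB_mono ?_ ?_ ?_).trans (hB i' hi')
        · exact Finset.subset_biUnion_of_mem F (Finset.mem_range.2 hi')
        · exact Finset.le_sup (f := h) (Finset.mem_range.2 hi')
        · exact fun d hd => hd i'
      intro x hx
      rintro ⟨z, hzK, hz⟩
      cases x with
      | p k' w i' hi' =>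
        cases z with
        | p k'' w'' i'' hi'' =>
          have hz' : YY.p k'' w'' = YY.p k' w := hz
          injection hz' with h1 h2
          subst h1; subst h2
          rw [BB_p] at hx
          obtain ⟨h1, h2, h3⟩ := hx
          subst h1
          exact hsub i'' hi'' (show XX.p k'' w'' i'' hi'' ∈ _ from ⟨rfl, rfl, h3⟩) hzK
        | d d => exact absurd (show YY.d d = YY.p k' w from hz) (by simp)
        | e d k'' j => exact absurd (show YY.e d k'' j = YY.p k' w from hz) (by simp)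
      | d d' =>
        cases z with
        | p k'' w'' i'' hi'' => exact absurd (show YY.p k'' w'' = YY.d d' from hz) (by simp)
        | d d =>
          have h : YY.d d = YY.d d' := hz
          injection h with h
          subst h
          exact hsub i hi hx hzK
        | e d k'' j => exact absurd (show YY.e d k'' j = YY.d d' from hz) (by simp)
      | e d' k' j' =>
        cases z with
        | p k'' w'' i'' hi'' => exact absurd (show YY.p k'' w'' = YY.e d' k' j' from hz) (by simp)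
        | d d => exact absurd (show YY.d d = YY.e d' k' j' from hz) (by simp)
        | e d k'' j =>
          have h : YY.e d k'' j = YY.e d' k' j' := hz
          injection h with h1 h2 h3
          subst h1; subst h2; subst h3
          exact hsub i hi hx hzK
  · intro d hm
    have hmem : XX.d d ∈ Kᶜ := by
      intro hK'
      exact hm ⟨_, hK', rfl⟩
    obtain ⟨k0, hk0⟩ := hG.2 d hmem
    refine ⟨k0, ?_⟩
    intro x hx
    rintro ⟨z, hzK, hz⟩
    cases x with
    | p k' w i' hi' => exact absurd hx id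
    | d d' =>
      cases z with
      | p k'' w'' i'' hi'' => exact absurd (show YY.p k'' w'' = YY.d d' from hz) (by simp)
      | d d =>
        have h : YY.d d = YY.d d' := hz
        injection h with h
        subst h
        exact hk0 hx hzK
      | e d k'' j => exact absurd (show YY.e d k'' j = YY.d d' from hz) (by simp)
    | e d' k' j' =>
      cases z with
      | p k'' w'' i'' hi'' => exact absurd (show YY.p k'' w'' = YY.e d' k' j' from hz) (by simp)
      | d d => exact absurd (show YY.d d = YY.e d' k' j' from hz) (by simp)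
      | e d k'' j =>
        have h : YY.e d k'' j = YY.e d' k' j' := hz
        injection h with h1 h2 h3
        subst h1; subst h2; subst h3
        exact hk0 hx hzK

end Pool.Agent.H56.OrthoT1
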